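import Pool.Agent.TH612.GS.Stm3
import Pool.Agent.TH521.GS.Rep

/-!
Project GF: replacement of the factors of a product of functions of shifted variables, with a fixed
further factor (REPA).
-/

set_option autoImplicit false

namespace Pool.Agent.TH406.GF

open MeasureTheory Set
open Pool.Agent.TH612.GS (mP)
open Pool.Agent.TH521.GS

theorem t_REPA : Pool.Agent.TH612.GS.S_REPA := by
  intro ι _ A f g T S K V Q hS hST hK hV hQ hA hf hg hop hVf hVg hAQ
  set n := Fintype.card ι with hn
  have e : ι ≃ Fin n := Fintype.equivFin ι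
  have hcD : Continuous fun γ : ι → ℝ => ‖∫ t in (0:ℝ)..S, A t *
      (∏ i, f i (t + γ i) - ∏ i, g i (t + γ i))‖ ^ 2 := by
    apply Continuous.pow
    apply Continuous.norm
    apply intervalIntegral.continuous_parametric_intervalIntegral_of_continuous'
    unfold Function.uncurry
    fun_prop
  rw [lint_equiv e T _ (mor hcD)]
  have h1 := rep_fin hS hST hK hV n (fun j => f (e.symm j)) (fun j => g (e.symm j))
    (fun j => hf _) (fun j => hg _) (fun j => hop _) (fun j => hVf _) (fun j => hVg _)
    A hA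
  have e1 : ∀ (h : ι → ℝ → ℂ) (γ : Fin n → ℝ) (t : ℝ),
      ∏ j, h (e.symm j) (t + γ j) = ∏ i, h i (t + γ (e i)) := by
    intro h γ t
    rw [← Equiv.prod_comp e]
    simp
  simp only [e1] at h1
  refine h1.trans (ENNReal.ofReal_le_ofReal ?_)
  have hI : 0 ≤ ∫ t in (0:ℝ)..S, ‖A t‖ ^ 2 :=
    intervalIntegral.integral_nonneg hS fun t _ => sq_nonneg _
  exact mul_le_mul (bb_le hK hV n) hAQ hI (by positivity)

end Pool.Agent.TH406.GF
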